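import Mathlib
import Pool.Agent.Helper472.CubeD

set_option autoImplicit false

namespace Pool.Agent.Results.MP_677ad5_pr.Disproof

open Finset Classical Filter Topology

/-- The `n`-cube: 0/1-vectors of length `n`, adjacent when they differ in exactly one coordinate. -/
def cube (n : ℕ) : SimpleGraph (Fin n → Bool) where
  Adj x y := hammingDist x y = 1
  symm := ⟨fun x y h => by rw [hammingDist_comm]; exact h⟩
  loopless := ⟨fun x h => by rw [hammingDist_self] at h; exact absurd h (by norm_num)⟩

/-- The probability that the random cubical graph `h_n` with vertex probability `pv` and edge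
probability `pe` is the subgraph `H` of the cube: the vertex set is chosen by independent trials
with success probability `pv`, then each edge of the cube with both ends in the chosen vertex set
is kept independently with probability `pe`. -/
noncomputable def law (n : ℕ) (pv pe : ℝ) (H : (cube n).Subgraph) : ℝ :=
  pv ^ H.verts.ncard * (1 - pv) ^ (2 ^ n - H.verts.ncard) *
    (pe ^ H.edgeSet.ncard *
      (1 - pe) ^ (((⊤ : (cube n).Subgraph).induce H.verts).edgeSet.ncard - H.edgeSet.ncard))

/-- The probability that `h_n` has the property `P`. -/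
noncomputable def prob (n : ℕ) (pv pe : ℝ) (P : (cube n).Subgraph → Prop) : ℝ :=
  ∑ H : (cube n).Subgraph, if P H then law n pv pe H else 0

/-- `m_p`, the integer part of `-1 / log_2 (1 - p)`. -/
noncomputable def mp (p : ℝ) : ℕ := ⌊-1 / Real.logb 2 (1 - p)⌋₊

/-- One component has at least `(1 - ε) |V|` vertices, all other components have at most `m`
vertices, and some other component has exactly `m` vertices. -/
def Good (n : ℕ) (ε : ℝ) (m : ℕ) (H : (cube n).Subgraph) : Prop :=
  ∃ c : H.coe.ConnectedComponent,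
    (1 - ε) * H.verts.ncard ≤ c.supp.ncard ∧
    (∀ c' : H.coe.ConnectedComponent, c' ≠ c → c'.supp.ncard ≤ m) ∧
    (∃ c' : H.coe.ConnectedComponent, c' ≠ c ∧ c'.supp.ncard = m)

/-- The assertion of Q1. -/
def Q1 : Prop :=
  ∀ pv pe : ℕ → ℝ, (∀ n, 0 < pv n ∧ pv n ≤ 1) → (∀ n, 0 < pe n ∧ pe n ≤ 1) →
    Tendsto (fun n => pv n * pe n) atTop (𝓝 0) →
    Tendsto (fun n : ℕ => pv n * pe n * n) atTop atTop →
    ∃ ε : ℕ → ℝ, Tendsto ε atTop (𝓝 0) ∧
      Tendsto (fun n => prob n (pv n) (pe n) (Good n (ε n) (mp (pv n * pe n)))) atTop (𝓝 1)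

/-- at least two components have more than `m` vertices -/
def Bad (n : ℕ) (m : ℕ) (H : (cube n).Subgraph) : Prop :=
  ∀ c : H.coe.ConnectedComponent, ∃ c' : H.coe.ConnectedComponent, c' ≠ c ∧ m < c'.supp.ncard

/-- the edges of a subgraph as a finset -/
noncomputable def ef {n : ℕ} (H : (cube n).Subgraph) : Finset (Sym2 (Fin n → Bool)) :=
  univ.filter (fun e => e ∈ H.edgeSet)

theorem mem_ef {n : ℕ} {H : (cube n).Subgraph} {e : Sym2 (Fin n → Bool)} :
    e ∈ ef H ↔ e ∈ H.edgeSet := by unfold ef; rw [mem_filter]; simp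

theorem mem_cE_iff {n : ℕ} {e : Sym2 (Fin n → Bool)} : e ∈ Helper472.cE n ↔ e ∈ (cube n).edgeSet := by
  rw [Helper472.mem_cE]
  induction e with
  | h x y =>
    rw [SimpleGraph.mem_edgeSet]
    constructor
    · rintro ⟨x', j, he⟩
      have h1 : hammingDist x' (Helper472.flp x' j) = 1 := (Helper472.hamming_one_iff _ _).mpr ⟨j, rfl⟩
      rw [Sym2.eq_iff] at he
      rcases he with ⟨h2, h3⟩ | ⟨h2, h3⟩
      · subst h2; subst h3; exact h1
      · subst h2; subst h3; exact SimpleGraph.Adj.symm (G := cube n) h1
    · intro h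
      obtain ⟨j, rfl⟩ := (Helper472.hamming_one_iff _ _).mp h
      exact ⟨x, j, rfl⟩

theorem ef_sub {n : ℕ} (H : (cube n).Subgraph) : ef H ⊆ Helper472.cE n := by
  intro e he
  rw [mem_cE_iff]
  exact H.edgeSet_subset (mem_ef.mp he)

theorem law_one {n : ℕ} (p : ℝ) (H : (cube n).Subgraph) :
    law n 1 p H = if H.verts = Set.univ then Helper472.wtS (Helper472.cE n).card p (ef H).card else 0 := by
  have hef : H.edgeSet.ncard = (ef H).card := by
    rw [← Set.ncard_coe_finset]
    congr 1
    ext e; simp [ef]
  unfold law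
  split_ifs with hv
  · have h1 : H.verts.ncard = 2 ^ n := by
      rw [hv, Set.ncard_univ, Nat.card_eq_fintype_card]; simp
    have h2 : ((⊤ : (cube n).Subgraph).induce H.verts).edgeSet.ncard = (Helper472.cE n).card := by
      rw [← Set.ncard_coe_finset]
      congr 1
      ext e
      rw [mem_coe, mem_cE_iff, hv]
      induction e with
      | h x y => simp
    rw [h1, h2, hef]
    unfold Helper472.wtS
    simp
  · have h1 : H.verts.ncard < 2 ^ n := by
      have h2 : H.verts ⊂ Set.univ := Set.ssubset_univ_iff.mpr hv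
      have h3 := Set.ncard_lt_ncard h2
      rw [Set.ncard_univ, Nat.card_eq_fintype_card] at h3
      simpa using h3
    have h4 : 2 ^ n - H.verts.ncard ≠ 0 := by omega
    rw [sub_self, zero_pow h4]
    simp

/-- the edges of the cube with both ends in `W` -/
noncomputable def ei (n : ℕ) (W : Finset (Fin n → Bool)) : Finset (Sym2 (Fin n → Bool)) :=
  univ.filter (fun e => e ∈ ((⊤ : (cube n).Subgraph).induce (W : Set (Fin n → Bool))).edgeSet)

theorem mem_ei {n : ℕ} {W : Finset (Fin n → Bool)} {e : Sym2 (Fin n → Bool)} :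
    e ∈ ei n W ↔ e ∈ ((⊤ : (cube n).Subgraph).induce (W : Set (Fin n → Bool))).edgeSet := by
  unfold ei; rw [mem_filter]; simp

/-- the subgraph with vertex set `W` and edges the members of `F` inside `W` -/
def mk (n : ℕ) (W : Finset (Fin n → Bool)) (F : Finset (Sym2 (Fin n → Bool))) :
    (cube n).Subgraph where
  verts := W
  Adj x y := x ∈ W ∧ y ∈ W ∧ (cube n).Adj x y ∧ s(x, y) ∈ F
  adj_sub h := h.2.2.1
  edge_vert h := h.1
  symm := ⟨fun x y h => ⟨h.2.1, h.1, SimpleGraph.Adj.symm h.2.2.1, by rw [Sym2.eq_swap]; exact h.2.2.2⟩⟩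

theorem ncard_ef {n : ℕ} (H : (cube n).Subgraph) : H.edgeSet.ncard = (ef H).card := by
  rw [← Set.ncard_coe_finset]
  congr 1
  ext e; simp [ef]

/-- Sanity check: the law is a probability distribution. -/
theorem prob_true (n : ℕ) (pv pe : ℝ) : prob n pv pe (fun _ => True) = 1 := by
  have h1 : prob n pv pe (fun _ => True) =
      ∑ W : Finset (Fin n → Bool), ∑ F ∈ (ei n W).powerset,
        pv ^ W.card * (1 - pv) ^ (2 ^ n - W.card) *
          (pe ^ F.card * (1 - pe) ^ ((ei n W).card - F.card)) := by
    unfold prob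
    rw [sum_sigma']
    refine sum_bij' (fun H _ => ⟨H.verts.toFinset, ef H⟩) (fun q _ => mk n q.1 q.2) ?_ ?_ ?_ ?_ ?_
    · intro H _
      rw [mem_sigma]
      refine ⟨mem_univ _, ?_⟩
      rw [mem_powerset]
      intro e he
      rw [mem_ei]
      rw [mem_ef] at he
      induction e with
      | h x y =>
        rw [SimpleGraph.Subgraph.mem_edgeSet] at he ⊢
        simp only [Set.coe_toFinset, SimpleGraph.Subgraph.induce_adj, SimpleGraph.Subgraph.top_adj]
        exact ⟨H.edge_vert he, H.edge_vert he.symm, he.adj_sub⟩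
    · intro q _
      exact mem_univ _
    · intro H _
      apply SimpleGraph.Subgraph.ext
      · simp [mk]
      · funext x y
        apply propext
        simp only [mk, Set.mem_toFinset]
        rw [mem_ef, SimpleGraph.Subgraph.mem_edgeSet]
        constructor
        · rintro ⟨_, _, _, h⟩; exact h
        · intro h; exact ⟨H.edge_vert h, H.edge_vert h.symm, h.adj_sub, h⟩
    · rintro ⟨W, F⟩ hq
      rw [mem_sigma] at hq
      have hF := mem_powerset.mp hq.2
      have e1 : (mk n W F).verts.toFinset = W := by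
        ext x
        rw [Set.mem_toFinset]
        exact mem_coe
      have e2 : ef (mk n W F) = F := by
        ext e
        rw [mem_ef]
        induction e with
        | h x y =>
          rw [SimpleGraph.Subgraph.mem_edgeSet]
          constructor
          · intro h; exact h.2.2.2
          · intro h
            have h2 := mem_ei.mp (hF h)
            rw [SimpleGraph.Subgraph.mem_edgeSet] at h2
            simp only [SimpleGraph.Subgraph.induce_adj, SimpleGraph.Subgraph.top_adj,
              mem_coe] at h2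
            exact ⟨h2.1, h2.2.1, h2.2.2, h⟩
      simp only
      rw [e1, e2]
    · intro H _
      simp only
      rw [if_pos trivial]
      unfold law
      have e1 : H.verts.ncard = H.verts.toFinset.card := Set.ncard_eq_toFinset_card' _
      have e3 : ((⊤ : (cube n).Subgraph).induce H.verts).edgeSet.ncard =
          (ei n H.verts.toFinset).card := by
        rw [← Set.ncard_coe_finset]
        congr 1
        ext e
        rw [mem_coe, mem_ei, Set.coe_toFinset]
      rw [ncard_ef, e1, e3]
  rw [h1]
  have h2 : ∀ W : Finset (Fin n → Bool), ∑ F ∈ (ei n W).powerset,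
        pv ^ W.card * (1 - pv) ^ (2 ^ n - W.card) *
          (pe ^ F.card * (1 - pe) ^ ((ei n W).card - F.card)) =
        pv ^ W.card * (1 - pv) ^ (2 ^ n - W.card) := by
    intro W
    rw [← mul_sum, sum_pow_mul_eq_add_pow]
    simp
  simp only [h2]
  have h3 := sum_pow_mul_eq_add_pow pv (1 - pv) (univ : Finset (Fin n → Bool))
  rw [powerset_univ] at h3
  have h4 : (univ : Finset (Fin n → Bool)).card = 2 ^ n := by simp
  rw [h4] at h3
  rw [h3]
  simp

theorem bad_of_cnt {n m : ℕ} {H : (cube n).Subgraph} (hv : H.verts = Set.univ)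
    (hc : 1 < Helper472.cnt m (ef H)) : Bad n m H := by
  have h1 : 1 < ((Helper472.idx n m).filter (fun a => Helper472.Cyl (ef H) a)).card := by
    unfold Helper472.cnt at hc
    rw [sum_boole] at hc
    exact_mod_cast hc
  obtain ⟨a, ha, b, hb, hab⟩ := one_lt_card.mp h1
  obtain ⟨ha1, ha2⟩ := mem_filter.mp ha
  obtain ⟨hb1, hb2⟩ := mem_filter.mp hb
  have hA := Helper472.mem_idx.mp ha1
  have hB := Helper472.mem_idx.mp hb1
  have hH : ∀ x y, H.spanningCoe.Adj x y → hammingDist x y = 1 := by
    intro x y h
    have : H.Adj x y := by simpa using h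
    exact this.adj_sub
  have hev : ∀ c : (Fin n → Bool) × (Fin m → Fin n), Helper472.Cyl (ef H) c →
      Helper472.Ev H.spanningCoe c.1 c.2 := by
    intro c hcyl
    constructor
    · intro e he
      have := mem_ef.mp (hcyl.1 he)
      simpa using this
    · intro e he he'
      apply disjoint_left.mp hcyl.2 he
      rw [mem_ef]
      simpa using he'
  let φ := H.spanningCoeEquivCoeOfSpanning (by intro v; rw [hv]; trivial)
  have hsize : ∀ c : (Fin n → Bool) × (Fin m → Fin n), Helper472.Adm c.1 c.2 →
      Helper472.Cyl (ef H) c →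
      (φ.connectedComponentEquiv (H.spanningCoe.connectedComponentMk c.1)).supp.ncard = m + 1 := by
    intro c hadm hcyl
    rw [← Helper472.comp_size hH hadm (hev c hcyl)]
    exact (Nat.card_congr (SimpleGraph.ConnectedComponent.isoEquivSupp φ _)).symm
  have hne : φ.connectedComponentEquiv (H.spanningCoe.connectedComponentMk a.1)
      ≠ φ.connectedComponentEquiv (H.spanningCoe.connectedComponentMk b.1) := by
    intro h
    have h2 := φ.connectedComponentEquiv.injective h
    exact Helper472.comp_ne hH hA hB (hev a ha2) (hev b hb2) (fun h3 => hab (Prod.ext h3.1 h3.2)) h2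
  intro c
  by_cases hca : c = φ.connectedComponentEquiv (H.spanningCoe.connectedComponentMk a.1)
  · refine ⟨φ.connectedComponentEquiv (H.spanningCoe.connectedComponentMk b.1), ?_, ?_⟩
    · rw [hca]; exact hne.symm
    · rw [hsize b hB hb2]; omega
  · refine ⟨φ.connectedComponentEquiv (H.spanningCoe.connectedComponentMk a.1), ?_, ?_⟩
    · exact fun h => hca h.symm
    · rw [hsize a hA ha2]; omega

theorem law_nonneg {n : ℕ} {p : ℝ} (h0 : 0 ≤ p) (h1 : p ≤ 1) (H : (cube n).Subgraph) :
    0 ≤ law n 1 p H := by
  unfold law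
  have : 0 ≤ 1 - p := by linarith
  have h2 : (0 : ℝ) ≤ 1 - 1 := by norm_num
  positivity

theorem prob_not_bad_le {n m : ℕ} {p : ℝ} (h0 : 0 ≤ p) (h1 : p ≤ 1) :
    prob n 1 p (fun H => ¬ Bad n m H) ≤
      ∑ F ∈ (Helper472.cE n).powerset.filter (fun F => Helper472.cnt m F ≤ 1),
        Helper472.wtS (Helper472.cE n).card p F.card := by
  have hq : 0 ≤ 1 - p := by linarith
  unfold prob
  calc _ = ∑ H ∈ (univ : Finset (cube n).Subgraph).filter
          (fun H => H.verts = Set.univ ∧ ¬ Bad n m H),
          Helper472.wtS (Helper472.cE n).card p (ef H).card := by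
        rw [sum_filter]
        apply sum_congr rfl
        intro H _
        rw [law_one]
        split_ifs <;> first | rfl | (exfalso; tauto)
    _ = ∑ F ∈ ((univ : Finset (cube n).Subgraph).filter
          (fun H => H.verts = Set.univ ∧ ¬ Bad n m H)).image ef,
          Helper472.wtS (Helper472.cE n).card p F.card := by
        rw [sum_image]
        intro H hH H' hH' he
        have hv := (mem_filter.mp (mem_coe.mp hH)).2.1
        have hv' := (mem_filter.mp (mem_coe.mp hH')).2.1
        apply SimpleGraph.Subgraph.ext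
        · rw [hv, hv']
        · funext x y
          apply propext
          rw [← SimpleGraph.Subgraph.mem_edgeSet, ← SimpleGraph.Subgraph.mem_edgeSet, ← mem_ef,
            ← mem_ef, he]
    _ ≤ _ := by
        apply sum_le_sum_of_subset_of_nonneg
        · intro F hF
          obtain ⟨H, hH, rfl⟩ := mem_image.mp hF
          obtain ⟨_, hv, hb⟩ := mem_filter.mp hH
          rw [mem_filter, mem_powerset]
          refine ⟨ef_sub H, ?_⟩
          by_contra hcon
          push Not at hcon
          exact hb (bad_of_cnt hv hcon)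
        · intro F _ _
          unfold Helper472.wtS
          positivity

theorem mp_eq (p : ℝ) : mp p = Helper472.mp p := by
  unfold mp Helper472.mp
  rw [neg_div]

/-- For every edge probability with `n p → ∞` and `n p ^ 2` bounded, with high probability the
random spanning subgraph has at least two components with more than `m_p` vertices. -/
theorem range_theorem (pe : ℕ → ℝ) (hpe : ∀ n, 0 < pe n ∧ pe n ≤ 1)
    (hinf : Tendsto (fun n : ℕ => (n : ℝ) * pe n) atTop atTop)
    (hC : ∃ C : ℝ, ∀ n : ℕ, (n : ℝ) * (pe n) ^ 2 ≤ C) :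
    Tendsto (fun n => prob n 1 (pe n) (fun H => ¬ Bad n (mp (pe n)) H)) atTop (𝓝 0) := by
  refine squeeze_zero (fun n => ?_) (fun n => ?_)
    (Helper472.path_prob_tendsto pe (fun n => (hpe n).1) hinf hC)
  · unfold prob
    apply sum_nonneg
    intro H _
    split_ifs
    · exact law_nonneg (hpe n).1.le (hpe n).2 H
    · exact le_refl _
  · rw [← mp_eq]
    exact prob_not_bad_le (hpe n).1.le (hpe n).2

theorem result : ¬ Q1 := by
  intro hQ
  -- the sequence 1 / sqrt (n + 1)
  set pe : ℕ → ℝ := fun n => 1 / Real.sqrt ((n : ℝ) + 1) with hpe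
  have hs : ∀ n : ℕ, 1 ≤ Real.sqrt ((n : ℝ) + 1) := by
    intro n
    apply Real.one_le_sqrt.mpr
    have : (0 : ℝ) ≤ n := by positivity
    linarith
  have hpe1 : ∀ n, 0 < pe n ∧ pe n ≤ 1 := by
    intro n
    have := hs n
    refine ⟨by rw [hpe]; positivity, ?_⟩
    rw [hpe]
    simp only
    rw [div_le_one (by linarith)]
    exact this
  have hsq : ∀ n : ℕ, Real.sqrt ((n : ℝ) + 1) ^ 2 = n + 1 := fun n => Real.sq_sqrt (by positivity)
  have hst : Tendsto (fun n : ℕ => Real.sqrt ((n : ℝ) + 1)) atTop atTop := by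
    apply Real.tendsto_sqrt_atTop.comp
    exact tendsto_atTop_add_const_right _ _ tendsto_natCast_atTop_atTop
  have hnp : ∀ n : ℕ, (n : ℝ) * pe n = Real.sqrt ((n : ℝ) + 1) - 1 / Real.sqrt ((n : ℝ) + 1) := by
    intro n
    have h1 := hs n
    have h2 := hsq n
    have h3 : (0 : ℝ) < Real.sqrt ((n : ℝ) + 1) := by linarith
    rw [hpe]
    field_simp
    linarith
  have hinf : Tendsto (fun n : ℕ => (n : ℝ) * pe n) atTop atTop := by
    have h1 : Tendsto (fun n : ℕ => Real.sqrt ((n : ℝ) + 1) - 1) atTop atTop :=
      tendsto_atTop_add_const_right _ _ hst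
    refine tendsto_atTop_mono (fun n => ?_) h1
    rw [hnp]
    have := hs n
    have : 1 / Real.sqrt ((n : ℝ) + 1) ≤ 1 := by
      rw [div_le_one (by linarith)]; exact this
    linarith
  have h0 : Tendsto pe atTop (𝓝 0) := by
    rw [hpe]
    simp only [one_div]
    exact hst.inv_tendsto_atTop
  have hC : ∃ C : ℝ, ∀ n : ℕ, (n : ℝ) * (pe n) ^ 2 ≤ C := by
    refine ⟨1, fun n => ?_⟩
    rw [hpe]
    simp only
    rw [div_pow, hsq, one_pow, mul_one_div, div_le_one (by positivity)]
    linarith
  obtain ⟨ε, _, hε⟩ := hQ (fun _ => 1) pe (fun _ => ⟨by norm_num, le_refl _⟩) hpe1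
    (by simpa using h0) (by
      refine hinf.congr (fun n => ?_)
      ring)
  have hle : ∀ n, prob n 1 (pe n) (Good n (ε n) (mp (1 * pe n)))
      ≤ prob n 1 (pe n) (fun H => ¬ Bad n (mp (pe n)) H) := by
    intro n
    unfold prob
    apply sum_le_sum
    intro H _
    have hl := law_nonneg (hpe1 n).1.le (hpe1 n).2 H
    rw [one_mul]
    by_cases hg : Good n (ε n) (mp (pe n)) H
    · have hb : ¬ Bad n (mp (pe n)) H := by
        intro hb
        obtain ⟨c, _, h2, _⟩ := hg
        obtain ⟨c', hc', h3⟩ := hb c
        have := h2 c' hc'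
        omega
      rw [if_pos hg, if_pos hb]
    · rw [if_neg hg]
      split_ifs
      · exact hl
      · exact le_refl _
  have hnn : ∀ n, 0 ≤ prob n 1 (pe n) (Good n (ε n) (mp (1 * pe n))) := by
    intro n
    unfold prob
    apply sum_nonneg
    intro H _
    split_ifs
    · exact law_nonneg (hpe1 n).1.le (hpe1 n).2 H
    · exact le_refl _
  have hz := squeeze_zero hnn hle (range_theorem pe hpe1 hinf hC)
  have := tendsto_nhds_unique hε hz
  norm_num at this

end Pool.Agent.Results.MP_677ad5_pr.Disproof
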